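import Pool.Agent.H38.AG.Targets

/-!
# The number of dependent sets in a given set of primes (ROJ, MP_7ecdd4_nt)
-/

set_option autoImplicit false

open Pool.Agent.H38.RB Pool.Agent.H38.PS Pool.Agent.H82.RD Pool.Agent.H38.AB Pool.Agent.H38.AG

namespace Pool.Agent.H3.AG

/-- subsets with at most `r` elements -/
lemma card_small (Q : Finset ℕ) (r : ℕ) :
    (Q.powerset.filter fun s => s.card ≤ r).card ≤ (Q.card + 1) ^ r := by
  classical
  have h1 : (Q.powerset.filter fun s => s.card ≤ r) ⊆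
      (Finset.range (r + 1)).biUnion (fun i => Q.powersetCard i) := by
    intro s hs
    rw [Finset.mem_filter, Finset.mem_powerset] at hs
    exact Finset.mem_biUnion.2 ⟨s.card, Finset.mem_range.2 (by omega),
      Finset.mem_powersetCard.2 ⟨hs.1, rfl⟩⟩
  refine (Finset.card_le_card h1).trans (Finset.card_biUnion_le.trans ?_)
  have h2 : (Q.card + 1) ^ r = ∑ i ∈ Finset.range (r + 1), Q.card ^ i * r.choose i := by
    rw [add_pow]
    refine Finset.sum_congr rfl fun i _ => ?_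
    rw [one_pow, mul_one]
    rfl
  rw [h2]
  refine Finset.sum_le_sum fun i hi => ?_
  rw [Finset.card_powersetCard]
  have h3 : 1 ≤ r.choose i := Nat.choose_pos (by have := Finset.mem_range.1 hi; omega)
  calc Q.card.choose i ≤ Q.card ^ i := Nat.choose_le_pow _ _
    _ = Q.card ^ i * 1 := (Nat.mul_one _).symm
    _ ≤ _ := Nat.mul_le_mul_left _ h3

/-- dependent sets give relations -/
lemma rel_of {q e Bd : ℕ} {S P R : Finset ℕ} (hq : q.Prime)
    (hSP : ∀ p ∈ S ∪ P, p.Prime ∧ p ≠ q) (hRP : R ⊆ P) (h : Dpt q e Bd S R) :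
    ∃ V : ℕ → ℤ, Rl q e Bd (S ∪ P) V ∧ (∀ p ∈ R, V p ≠ 0) ∧ ∀ p, p ∉ S ∪ R → V p = 0 := by
  classical
  obtain ⟨α, γ, h1, h2, h3⟩ := h
  have hsub : S ∪ R ⊆ S ∪ P := Finset.union_subset_union_right hRP
  refine ⟨fun p => if p ∈ S ∪ R then (γ p : ℤ) - α p else 0, ⟨fun u => ?_, ?_⟩, fun p hp => ?_,
    fun p hp => if_neg hp⟩
  · by_cases hu : u ∈ S ∪ R
    · simp only [if_pos hu]
      have h4 := h1 u hu
      rw [abs_le]
      constructor <;> omega
    · simp only [if_neg hu]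
      simp
  · have e1 : ∏ u ∈ S ∪ P, u ^ (if u ∈ S ∪ R then (γ u : ℤ) - α u else 0).toNat =
        ∏ u ∈ S ∪ R, u ^ (γ u - α u) := by
      symm
      rw [← Finset.prod_subset hsub (f := fun u =>
        u ^ (if u ∈ S ∪ R then (γ u : ℤ) - α u else 0).toNat) (fun u _ hu => by
          simp only [if_neg hu]; simp)]
      refine Finset.prod_congr rfl fun u hu => ?_
      simp only [if_pos hu]
      congr 1
      omega
    have e2 : ∏ u ∈ S ∪ P, u ^ (-(if u ∈ S ∪ R then (γ u : ℤ) - α u else 0)).toNat =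
        ∏ u ∈ S ∪ R, u ^ (α u - γ u) := by
      symm
      rw [← Finset.prod_subset hsub (f := fun u =>
        u ^ (-(if u ∈ S ∪ R then (γ u : ℤ) - α u else 0)).toNat) (fun u _ hu => by
          simp only [if_neg hu]; simp)]
      refine Finset.prod_congr rfl fun u hu => ?_
      simp only [if_pos hu]
      congr 1
      omega
    rw [e1, e2]
    have e3 : ∏ u ∈ S ∪ R, u ^ γ u =
        (∏ u ∈ S ∪ R, u ^ min (α u) (γ u)) * ∏ u ∈ S ∪ R, u ^ (γ u - α u) := by
      rw [← Finset.prod_mul_distrib]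
      refine Finset.prod_congr rfl fun u _ => ?_
      rw [← pow_add]
      congr 1
      omega
    have e4 : ∏ u ∈ S ∪ R, u ^ α u =
        (∏ u ∈ S ∪ R, u ^ min (α u) (γ u)) * ∏ u ∈ S ∪ R, u ^ (α u - γ u) := by
      rw [← Finset.prod_mul_distrib]
      refine Finset.prod_congr rfl fun u _ => ?_
      rw [← pow_add]
      congr 1
      omega
    rw [e3, e4, mul_pow, mul_pow] at h3
    refine Nat.ModEq.cancel_left_of_coprime ?_ h3
    have e5 : Nat.Coprime q (∏ u ∈ S ∪ R, u ^ min (α u) (γ u)) := by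
      refine Nat.Coprime.prod_right fun u hu => ?_
      refine Nat.Coprime.pow_right _ ?_
      have h5 := hSP u (hsub hu)
      exact (Nat.coprime_primes hq h5.1).2 fun h => h5.2 h.symm
    exact Nat.Coprime.pow _ _ e5
  · simp only [if_pos (Finset.mem_union_right S hp)]
    have := h2 p hp
    omega

theorem pf_ROJ (hMAT : T_MAT) (hRLL : T_RLL) : T_ROJ := by
  classical
  intro η hη
  obtain ⟨K, X₀, hK, hX₀, hR⟩ := hRLL
  refine ⟨max K 200000, η / 6, max X₀ (Real.exp (3 + 2 / η)), hK.trans (le_max_left _ _),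
    by positivity, hX₀.trans (le_max_left _ _), ?_⟩
  intro X ℓ m₁ q e Bd S P F hX hKℓ hℓ hq hqX hBd hBd1 he hSP hprime hcard hScard hm₁ hF
  have hXX₀ : X₀ ≤ X := (le_max_left _ _).trans hX
  have hXe : Real.exp (3 + 2 / η) ≤ X := (le_max_right _ _).trans hX
  have hXpos : 0 < X := (Real.exp_pos _).trans_le hXe
  have hηi : 0 < 2 / η := by positivity
  obtain ⟨l, hl⟩ : ∃ l, l = Real.log X := ⟨_, rfl⟩
  obtain ⟨ll, hll⟩ : ∃ ll, ll = Real.log l := ⟨_, rfl⟩
  rw [← hl, ← hll] at hKℓ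
  rw [← hl] at hℓ hScard
  have hl3 : 3 + 2 / η ≤ l := by
    rw [hl, Real.le_log_iff_exp_le hXpos]
    exact hXe
  have hl3' : 3 ≤ l := by linarith
  have hl0 : 0 < l := by linarith
  have hll1 : 1 ≤ ll := by
    rw [hll, Real.le_log_iff_exp_le hl0]
    linarith [Real.exp_one_lt_d9]
  have hℓ2 : 200000 * ll ≤ ℓ := by
    refine le_trans (mul_le_mul_of_nonneg_right (le_max_right K _) (by linarith)) hKℓ
  have hKℓ' : K * ll ≤ ℓ :=
    le_trans (mul_le_mul_of_nonneg_right (le_max_left K _) (by linarith)) hKℓ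
  have hℓ3 : 200000 ≤ ℓ := by nlinarith
  have hℓ0 : 0 < ℓ := by linarith
  obtain ⟨c, hc⟩ : ∃ c, c = Real.exp (ℓ / 5000) + 1 := ⟨_, rfl⟩
  rw [← hc] at hF
  have hc1 : 1 < c := by rw [hc]; linarith [Real.exp_pos (ℓ / 5000)]
  have hc0 : 0 < c := by linarith
  have hlogc : Real.log c ≤ ℓ / 5000 + 1 := by
    rw [← Real.log_exp (ℓ / 5000 + 1)]
    apply Real.log_le_log hc0
    rw [hc, Real.exp_add]
    have h1 : 1 ≤ Real.exp (ℓ / 5000) := Real.one_le_exp (by positivity)
    have h2 := Real.exp_one_gt_d9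
    nlinarith
  have hlogc' : ℓ / 5000 ≤ Real.log c := by
    rw [Real.le_log_iff_exp_le hc0, hc]
    linarith
  -- the weights
  have hmin : ∀ u : ℕ, u ∈ S ∪ P → 0 ≤ Real.log (min (u : ℝ) c) ∧
      Real.log (min (u : ℝ) c) ≤ ℓ / 5000 + 1 := by
    intro u hu
    have hu2 : (2 : ℝ) ≤ u := by exact_mod_cast (hprime u hu).1.two_le
    have h1 : 1 ≤ min (u : ℝ) c := le_min (by linarith) hc1.le
    refine ⟨Real.log_nonneg h1, le_trans (Real.log_le_log (by linarith) (min_le_right _ _)) hlogc⟩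
  obtain ⟨μ, hμ⟩ : ∃ μ : {x // x ∈ S ∪ P} → ℝ, μ = fun u : {x // x ∈ S ∪ P} =>
      if (u : ℕ) ∈ P then (90 * Real.log (min ((u : ℕ) : ℝ) c) + 30 * ll) / ℓ else 0 := ⟨_, rfl⟩
  have hterm : ∀ u : ℕ, u ∈ S ∪ P →
      0 ≤ (90 * Real.log (min (u : ℝ) c) + 30 * ll) / ℓ ∧
      (90 * Real.log (min (u : ℝ) c) + 30 * ll) / ℓ ≤ 1 := by
    intro u hu
    obtain ⟨h1, h2⟩ := hmin u hu
    refine ⟨by positivity, ?_⟩
    rw [div_le_one hℓ0]
    linarith
  have hμ0 : ∀ i, 0 ≤ μ i := by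
    intro i
    rw [hμ]
    simp only
    split_ifs
    · exact (hterm i i.2).1
    · exact le_rfl
  -- few relations
  have hDD : ∀ Q : Finset {x // x ∈ S ∪ P},
      (DD (Lam q e Bd (S ∪ P)) Q : ℝ) ≤ ∑ i ∈ Q, μ i + 2 * l := by
    intro Q
    have h1 := hR X ℓ q e Bd (S ∪ P) (Q.image fun u : {x // x ∈ S ∪ P} => (u : ℕ)) hXX₀
      (by rw [← hl, ← hll]; exact hKℓ') (by rw [← hl]; exact hℓ) hq hqX
      (by
        intro u hu
        obtain ⟨v, _, rfl⟩ := Finset.mem_image.1 hu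
        exact v.2) hprime hcard hBd1 hBd he
    rw [← hl, ← hll, ← hc] at h1
    have h2 : DQ q e Bd (S ∪ P) (Q.image fun u : {x // x ∈ S ∪ P} => (u : ℕ)) = DD (Lam q e Bd (S ∪ P)) Q := by
      unfold DQ
      congr 1
      ext u
      rw [Finset.mem_filter]
      constructor
      · rintro ⟨-, h⟩
        obtain ⟨v, hv, hvu⟩ := Finset.mem_image.1 h
        have : v = u := Subtype.ext hvu
        rwa [← this]
      · intro h
        exact ⟨Finset.mem_univ _, Finset.mem_image.2 ⟨u, h, rfl⟩⟩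
    rw [h2, Finset.sum_image (fun u _ v _ h => Subtype.ext h)] at h1
    have h3 : ∑ u ∈ Q, (90 * Real.log (min ((u : ℕ) : ℝ) c) + 30 * ll) / ℓ ≤
        ∑ u ∈ Q, (μ u + if (u : ℕ) ∈ S then 1 else 0) := by
      refine Finset.sum_le_sum fun u _ => ?_
      rw [hμ]
      simp only
      have h4 := hterm u u.2
      by_cases hP : (u : ℕ) ∈ P
      · rw [if_pos hP]
        split_ifs <;> linarith
      · have hS : (u : ℕ) ∈ S := (Finset.mem_union.1 u.2).resolve_right hP
        rw [if_neg hP, if_pos hS]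
        linarith
    have h5 : ∑ u ∈ Q, (if (u : ℕ) ∈ S then (1 : ℝ) else 0) ≤ l := by
      rw [← Finset.sum_filter, Finset.sum_const, nsmul_eq_mul, mul_one]
      refine le_trans ?_ hScard
      have h6 : ((Q.filter fun u : {x // x ∈ S ∪ P} => (u : ℕ) ∈ S).image fun u : {x // x ∈ S ∪ P} => (u : ℕ)).card =
          (Q.filter fun u : {x // x ∈ S ∪ P} => (u : ℕ) ∈ S).card :=
        Finset.card_image_of_injective _ Subtype.val_injective
      rw [← h6]
      exact_mod_cast Finset.card_le_card (fun u hu => by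
        obtain ⟨v, hv, rfl⟩ := Finset.mem_image.1 hu
        exact (Finset.mem_filter.1 hv).2)
    rw [Finset.sum_add_distrib] at h3
    linarith
  -- supports
  have hT : ∀ R : Finset ℕ, ∃ T : Finset {x // x ∈ S ∪ P}, R ∈ F →
      (∃ v ∈ Lam q e Bd (S ∪ P), ∀ i, v i ≠ 0 ↔ i ∈ T) ∧
      ∀ u : {x // x ∈ S ∪ P}, (u : ℕ) ∈ P → (u ∈ T ↔ (u : ℕ) ∈ R) := by
    intro R
    by_cases hRF : R ∈ F
    · obtain ⟨hRP, -, -, -, hDpt⟩ := hF R hRF
      obtain ⟨V, hV1, hV2, hV3⟩ := rel_of hq (fun p hp => ⟨(hprime p hp).1, (hprime p hp).2.1⟩)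
        hRP hDpt
      refine ⟨Finset.univ.filter fun u => V u ≠ 0, fun _ => ⟨⟨fun u => ((V u : ℤ) : ℚ),
        Submodule.subset_span ⟨V, hV1, rfl⟩, fun i => ?_⟩, fun u hu => ?_⟩⟩
      · rw [Finset.mem_filter]
        simp
      · rw [Finset.mem_filter]
        constructor
        · rintro ⟨-, h⟩
          by_contra hn
          apply h
          apply hV3
          rw [Finset.mem_union]
          rintro (h1 | h1)
          · exact Finset.disjoint_left.1 hSP h1 hu
          · exact hn h1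
        · intro h
          exact ⟨Finset.mem_univ _, hV2 u h⟩
    · exact ⟨∅, fun h => absurd h hRF⟩
  choose T hT using hT
  have hℓl : 30 * ll ≤ ℓ / 5000 := by linarith
  obtain ⟨Q₀, hQ₀, hQcard⟩ := hMAT {x // x ∈ S ∪ P} (Lam q e Bd (S ∪ P)) (F.image T)
    μ (2 * l) (91 / ℓ * m₁) hμ0 (by positivity) (by positivity) hDD (by
      intro T' hT'
      obtain ⟨R, hRF, rfl⟩ := Finset.mem_image.1 hT'
      obtain ⟨hT1, hT2⟩ := hT R hRF
      obtain ⟨hRP, hRl, -, hRm, -⟩ := hF R hRF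
      refine ⟨hT1, ?_⟩
      have h1 : ∑ i ∈ T R, μ i = ∑ i ∈ (T R).filter (fun u : {x // x ∈ S ∪ P} => (u : ℕ) ∈ P),
          (90 * Real.log (min ((i : ℕ) : ℝ) c) + 30 * ll) / ℓ := by
        rw [hμ, Finset.sum_filter]
      have h2 : ((T R).filter (fun u : {x // x ∈ S ∪ P} => (u : ℕ) ∈ P)).image (fun u : {x // x ∈ S ∪ P} => (u : ℕ)) = R := by
        ext p
        rw [Finset.mem_image]
        constructor
        · rintro ⟨u, hu, rfl⟩
          rw [Finset.mem_filter] at hu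
          exact (hT2 u hu.2).1 hu.1
        · intro hp
          refine ⟨⟨p, Finset.mem_union_right _ (hRP hp)⟩, ?_, rfl⟩
          rw [Finset.mem_filter]
          exact ⟨(hT2 ⟨p, Finset.mem_union_right _ (hRP hp)⟩ (hRP hp)).2 hp, hRP hp⟩
      have h3 : ∑ i ∈ T R, μ i = ∑ p ∈ R, (90 * Real.log (min (p : ℝ) c) + 30 * ll) / ℓ := by
        rw [h1]
        conv_rhs => rw [← h2]
        rw [Finset.sum_image (fun u _ v _ h => Subtype.ext h)]
      rw [h3]
      calc ∑ p ∈ R, (90 * Real.log (min (p : ℝ) c) + 30 * ll) / ℓ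
          ≤ ∑ p ∈ R, 91 / ℓ * Real.log (min (p : ℝ) c) := by
            refine Finset.sum_le_sum fun p hp => ?_
            have h4 : 30 * ll ≤ Real.log (min (p : ℝ) c) := by
              have h5 : Real.log (l ^ 30) < Real.log (p : ℝ) := by
                apply Real.log_lt_log (by positivity)
                rw [hl]
                exact hRl p hp
              rw [Real.log_pow, ← hll] at h5
              push_cast at h5
              rcases le_total (p : ℝ) c with h6 | h6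
              · rw [min_eq_left h6]
                exact h5.le
              · rw [min_eq_right h6]
                linarith
            rw [div_mul_eq_mul_div]
            apply div_le_div_of_nonneg_right _ hℓ0.le
            linarith
        _ = 91 / ℓ * ∑ p ∈ R, Real.log (min (p : ℝ) c) := by rw [Finset.mul_sum]
        _ ≤ 91 / ℓ * m₁ := mul_le_mul_of_nonneg_left hRm (by positivity))
  -- the supports outside `Q₀`
  have hcount1 : ((((F.image T).image fun R => R \ Q₀).card : ℕ) : ℝ) ≤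
      2 * Real.exp (3 / 20 * m₁) := by
    refine hQcard.trans ?_
    refine mul_le_mul_of_nonneg_left ?_ (by norm_num)
    have hn : ((Fintype.card {x // x ∈ S ∪ P} : ℕ) : ℝ) + 1 ≤
        Real.exp (ℓ / 5000 + 1) := by
      rw [Fintype.card_coe]
      have h1 : Real.log c ≤ ℓ / 5000 + 1 := hlogc
      have h2 : c ≤ Real.exp (ℓ / 5000 + 1) := by
        rw [← Real.log_le_iff_le_exp hc0]
        exact h1
      rw [hc] at h2
      linarith
    have h1 : (((Fintype.card {x // x ∈ S ∪ P} : ℕ) : ℝ) + 1) ^ (8 * (91 / ℓ * m₁)) ≤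
        Real.exp (ℓ / 5000 + 1) ^ (8 * (91 / ℓ * m₁)) :=
      Real.rpow_le_rpow (by positivity) hn (by positivity)
    refine h1.trans ?_
    rw [← Real.exp_mul]
    apply Real.exp_le_exp.2
    have h2 : (ℓ / 5000 + 1) * (8 * (91 / ℓ * m₁)) = (728 / 5000 + 728 / ℓ) * m₁ := by
      field_simp
      ring
    rw [h2]
    apply mul_le_mul_of_nonneg_right _ hm₁
    have h3 : 728 / ℓ ≤ 728 / 200000 := by
      apply div_le_div_of_nonneg_left (by norm_num) (by norm_num) hℓ3
    linarith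
  -- the primes in `Q₀`
  obtain ⟨Q₁, hQ₁⟩ : ∃ Q₁ : Finset ℕ, Q₁ = (Q₀.filter fun u : {x // x ∈ S ∪ P} => (u : ℕ) ∈ P).image
    (fun u : {x // x ∈ S ∪ P} => (u : ℕ)) := ⟨_, rfl⟩
  have hQ₁card : (Q₁.card : ℝ) ≤ 2 * l ^ 2 := by
    rw [hQ₁, Finset.card_image_of_injective _ Subtype.val_injective]
    have h1 : ∑ i ∈ Q₀.filter (fun u : {x // x ∈ S ∪ P} => (u : ℕ) ∈ P), ll / l ≤ 2 * l := by
      refine le_trans (Finset.sum_le_sum fun u hu => ?_)
        (le_trans (Finset.sum_le_sum_of_subset_of_nonneg (Finset.filter_subset _ _)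
          (fun i _ _ => hμ0 i)) hQ₀)
      rw [hμ]
      simp only
      rw [if_pos (Finset.mem_filter.1 hu).2, div_le_div_iff₀ hl0 hℓ0]
      have h2 := (hmin u u.2).1
      have h3 : ll * ℓ ≤ ll * (30 * l) := mul_le_mul_of_nonneg_left hℓ (by linarith)
      have h4 : 0 ≤ 90 * Real.log (min ((u : ℕ) : ℝ) c) * l := by positivity
      nlinarith
    rw [Finset.sum_const, nsmul_eq_mul] at h1
    have h2 : 1 / l ≤ ll / l := div_le_div_of_nonneg_right hll1 hl0.le
    have h3 : ((Q₀.filter fun u : {x // x ∈ S ∪ P} => (u : ℕ) ∈ P).card : ℝ) * (1 / l) ≤ 2 * l :=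
      le_trans (mul_le_mul_of_nonneg_left h2 (Nat.cast_nonneg _)) h1
    rw [mul_one_div, div_le_iff₀ hl0] at h3
    linarith
  obtain ⟨r, hr⟩ : ∃ r : ℕ, r = ⌊η / 6 * l / ll⌋₊ := ⟨_, rfl⟩
  have hr1 : (r : ℝ) * ll ≤ η / 6 * l := by
    have h1 : (r : ℝ) ≤ η / 6 * l / ll := by
      rw [hr]
      exact Nat.floor_le (by positivity)
    rwa [le_div_iff₀ (by linarith)] at h1
  have hcount2 : (((Q₁.powerset.filter fun s => s.card ≤ r).card : ℕ) : ℝ) ≤ X ^ (η / 2) := by
    have h1 : (((Q₁.powerset.filter fun s => s.card ≤ r).card : ℕ) : ℝ) ≤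
        ((Q₁.card : ℝ) + 1) ^ r := by exact_mod_cast card_small Q₁ r
    have h2 : (Q₁.card : ℝ) + 1 ≤ l ^ 3 := by nlinarith [sq_nonneg l]
    have h3 : ((Q₁.card : ℝ) + 1) ^ r ≤ (l ^ 3) ^ r :=
      pow_le_pow_left₀ (by positivity) h2 r
    refine h1.trans (h3.trans ?_)
    rw [← Real.log_le_log_iff (by positivity) (Real.rpow_pos_of_pos hXpos _),
      Real.log_rpow hXpos, Real.log_pow, Real.log_pow, ← hl, ← hll]
    push_cast
    linarith
  -- counting
  have hinj : F.card ≤ (((F.image T).image fun R => R \ Q₀) ×ˢ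
      (Q₁.powerset.filter fun s => s.card ≤ r)).card := by
    apply Finset.card_le_card_of_injOn (fun R => (T R \ Q₀, R.filter fun p => p ∈ Q₁))
    · intro R hR
      have hR' : R ∈ F := hR
      rw [Finset.mem_coe, Finset.mem_product]
      refine ⟨Finset.mem_image.2 ⟨T R, Finset.mem_image.2 ⟨R, hR', rfl⟩, rfl⟩, ?_⟩
      rw [Finset.mem_filter, Finset.mem_powerset]
      refine ⟨fun p hp => (Finset.mem_filter.1 hp).2, ?_⟩
      refine (Finset.card_filter_le _ _).trans ?_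
      rw [hr]
      apply Nat.le_floor
      obtain ⟨-, -, hRc, -, -⟩ := hF R hR'
      rw [← hl, ← hll] at hRc
      rw [le_div_iff₀ (by linarith)]
      exact hRc
    · intro R hR R' hR' h
      have hR1 : R ∈ F := hR
      have hR1' : R' ∈ F := hR'
      have h1 : T R \ Q₀ = T R' \ Q₀ := (Prod.mk.inj h).1
      have h2 : (R.filter fun p => p ∈ Q₁) = R'.filter fun p => p ∈ Q₁ := (Prod.mk.inj h).2
      have key : ∀ R₁ R₂ : Finset ℕ, R₁ ∈ F → R₂ ∈ F → T R₁ \ Q₀ = T R₂ \ Q₀ →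
          ((R₁.filter fun p => p ∈ Q₁) = R₂.filter fun p => p ∈ Q₁) → R₁ ⊆ R₂ := by
        intro R₁ R₂ k1 k2 k3 k4 p hp
        have hpP : p ∈ P := (hF R₁ k1).1 hp
        obtain ⟨u, hu⟩ : ∃ u : {x // x ∈ S ∪ P}, (u : ℕ) = p :=
          ⟨⟨p, Finset.mem_union_right _ hpP⟩, rfl⟩
        by_cases hq0 : u ∈ Q₀
        · have k5 : p ∈ R₁.filter fun p => p ∈ Q₁ := by
            rw [Finset.mem_filter, hQ₁, Finset.mem_image]
            refine ⟨hp, u, ?_, hu⟩
            rw [Finset.mem_filter, hu]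
            exact ⟨hq0, hpP⟩
          rw [k4] at k5
          exact (Finset.mem_filter.1 k5).1
        · have k5 : u ∈ T R₁ \ Q₀ := by
            rw [Finset.mem_sdiff]
            refine ⟨((hT R₁ k1).2 u (by rw [hu]; exact hpP)).2 (by rw [hu]; exact hp), hq0⟩
          rw [k3, Finset.mem_sdiff] at k5
          have k6 := ((hT R₂ k2).2 u (by rw [hu]; exact hpP)).1 k5.1
          rwa [hu] at k6
      exact Finset.Subset.antisymm (key R R' hR1 hR1' h1 h2) (key R' R hR1' hR1 h1.symm h2.symm)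
  rw [Finset.card_product] at hinj
  have h1 : (F.card : ℝ) ≤ (2 * Real.exp (3 / 20 * m₁)) * X ^ (η / 2) := by
    have h2 : (F.card : ℝ) ≤ ((((F.image T).image fun R => R \ Q₀).card : ℕ) : ℝ) *
        (((Q₁.powerset.filter fun s => s.card ≤ r).card : ℕ) : ℝ) := by exact_mod_cast hinj
    refine h2.trans (mul_le_mul hcount1 hcount2 (Nat.cast_nonneg _) (by positivity))
  have h2 : (2 : ℝ) ≤ X ^ (η / 2) := by
    have h3 : Real.exp 1 ≤ X ^ (η / 2) := by
      rw [Real.rpow_def_of_pos hXpos]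
      apply Real.exp_le_exp.2
      rw [← hl]
      have h4 : 2 / η ≤ l := by linarith
      rw [div_le_iff₀ hη] at h4
      linarith
    linarith [Real.exp_one_gt_d9]
  have h3 : X ^ η = X ^ (η / 2) * X ^ (η / 2) := by
    rw [← Real.rpow_add hXpos]
    congr 1
    ring
  calc (F.card : ℝ) ≤ (2 * Real.exp (3 / 20 * m₁)) * X ^ (η / 2) := h1
    _ = 2 * (Real.exp (3 / 20 * m₁) * X ^ (η / 2)) := by ring
    _ ≤ X ^ (η / 2) * (Real.exp (3 / 20 * m₁) * X ^ (η / 2)) :=
        mul_le_mul_of_nonneg_right h2 (by positivity)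
    _ = X ^ η * Real.exp (3 / 20 * m₁) := by rw [h3]; ring

end Pool.Agent.H3.AG
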