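import Pool.Agent.H38.AG.Targets

/-!
# A light key, or the light primes of every entry have small weight (SLK, MP_7ecdd4_nt)
-/

set_option autoImplicit false

open Pool.Agent.H38.RB Pool.Agent.H38.PS Pool.Agent.H82.RD Pool.Agent.H38.AB Pool.Agent.H38.AG

namespace Pool.Agent.H3.AG

lemma log_pd {S : Finset ℕ} (hS : ∀ p ∈ S, p.Prime) :
    Real.log (pd S : ℝ) = ∑ p ∈ S, Real.log (p : ℝ) := by
  unfold pd
  rw [Nat.cast_prod, Real.log_prod fun p hp => Nat.cast_ne_zero.2 (hS p hp).ne_zero]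

lemma log_tp {S : Finset ℕ} (m : ℕ) (hS : ∀ p ∈ S, p.Prime) :
    Real.log (tp S m : ℝ) = ∑ p ∈ S, (m.factorization p : ℝ) * Real.log (p : ℝ) := by
  unfold tp
  rw [Nat.cast_prod, Real.log_prod fun p hp =>
    Nat.cast_ne_zero.2 (pow_ne_zero _ (hS p hp).ne_zero)]
  refine Finset.sum_congr rfl fun p _ => ?_
  rw [Nat.cast_pow, Real.log_pow]

lemma pd_pos {S : Finset ℕ} (hS : ∀ p ∈ S, p.Prime) : 0 < pd S :=
  Finset.prod_pos fun p hp => (hS p hp).pos

lemma tp_pos {S : Finset ℕ} (m : ℕ) (hS : ∀ p ∈ S, p.Prime) : 0 < tp S m :=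
  Finset.prod_pos fun p hp => pow_pos (hS p hp).pos _

lemma pr_eq (x : Fin 3 → ℤ) {a b d : Fin 3} (hab : a ≠ b) (had : a ≠ d) (hbd : b ≠ d) :
    pr x = (x a).natAbs * ((x b).natAbs * (x d).natAbs) := by
  unfold pr
  rw [Int.natAbs_mul, Int.natAbs_mul]
  fin_cases a <;> fin_cases b <;> fin_cases d <;> simp at hab had hbd ⊢ <;> ring

lemma cop {x : Fin 3 → ℤ} (hx : Adm x) {i j : Fin 3} (hij : i ≠ j) :
    (x i).natAbs.Coprime (x j).natAbs := Int.isCoprime_iff_gcd_eq_one.1 (hx.2.1 i j hij)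

lemma disj {x : Fin 3 → ℤ} (hx : Adm x) {i j : Fin 3} (hij : i ≠ j) :
    Disjoint (x i).natAbs.primeFactors (x j).natAbs.primeFactors :=
  (cop hx hij).disjoint_primeFactors

lemma pr_ne {x : Fin 3 → ℤ} (hx : Adm x) : pr x ≠ 0 := by
  unfold pr
  rw [Int.natAbs_ne_zero]
  exact mul_ne_zero (mul_ne_zero (hx.1 0) (hx.1 1)) (hx.1 2)

lemma pf_pr {x : Fin 3 → ℤ} (hx : Adm x) {a b d : Fin 3} (hab : a ≠ b) (had : a ≠ d)
    (hbd : b ≠ d) : (pr x).primeFactors = (x a).natAbs.primeFactors ∪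
      ((x b).natAbs.primeFactors ∪ (x d).natAbs.primeFactors) := by
  have ha : (x a).natAbs ≠ 0 := Int.natAbs_ne_zero.2 (hx.1 a)
  have hb : (x b).natAbs ≠ 0 := Int.natAbs_ne_zero.2 (hx.1 b)
  have hd : (x d).natAbs ≠ 0 := Int.natAbs_ne_zero.2 (hx.1 d)
  rw [pr_eq x hab had hbd, Nat.primeFactors_mul ha (mul_ne_zero hb hd),
    Nat.primeFactors_mul hb hd]

lemma pd_pr {x : Fin 3 → ℤ} (hx : Adm x) {a b d : Fin 3} (hab : a ≠ b) (had : a ≠ d)
    (hbd : b ≠ d) : pd (pr x).primeFactors = pd (x a).natAbs.primeFactors *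
      (pd (x b).natAbs.primeFactors * pd (x d).natAbs.primeFactors) := by
  rw [pf_pr hx hab had hbd]
  unfold pd
  rw [Finset.prod_union, Finset.prod_union (disj hx hbd)]
  rw [Finset.disjoint_union_right]
  exact ⟨disj hx hab, disj hx had⟩

lemma tp_mono (T : Finset ℕ) {m n : ℕ} (hT : ∀ p ∈ T, p.Prime) (hn : n ≠ 0) (h : m ∣ n) :
    tp T m ≤ tp T n := by
  have hm : m ≠ 0 := fun h0 => hn (by rw [h0] at h; exact Nat.eq_zero_of_zero_dvd h)
  unfold tp
  refine Finset.prod_le_prod' fun p hp => ?_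
  exact Nat.pow_le_pow_right (hT p hp).pos ((Nat.factorization_le_iff_dvd hm hn).2 h p)

lemma tp_self {m : ℕ} (hm : m ≠ 0) : tp m.primeFactors m = m := by
  unfold tp
  exact Nat.prod_factorization_pow_eq_self hm

/-- the part of the product composed of some primes of one entry and all the primes of the
others -/
lemma tp_pr {x : Fin 3 → ℤ} (hx : Adm x) {a b d : Fin 3} (hab : a ≠ b) (had : a ≠ d)
    (hbd : b ≠ d) {T : Finset ℕ} (hT : T ⊆ (x a).natAbs.primeFactors) :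
    tp T (x a).natAbs * ((x b).natAbs * (x d).natAbs) ≤
      tp (T ∪ ((x b).natAbs.primeFactors ∪ (x d).natAbs.primeFactors)) (pr x) := by
  have ha : (x a).natAbs ≠ 0 := Int.natAbs_ne_zero.2 (hx.1 a)
  have hb : (x b).natAbs ≠ 0 := Int.natAbs_ne_zero.2 (hx.1 b)
  have hd : (x d).natAbs ≠ 0 := Int.natAbs_ne_zero.2 (hx.1 d)
  have h0 := pr_ne hx
  have e := pr_eq x hab had hbd
  have d1 : (x a).natAbs ∣ pr x := by rw [e]; exact Dvd.intro _ rfl
  have d2 : (x b).natAbs ∣ pr x := by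
    rw [e]; exact Dvd.dvd.mul_left (Dvd.intro _ rfl) _
  have d3 : (x d).natAbs ∣ pr x := by
    rw [e]; exact Dvd.dvd.mul_left (Dvd.intro_left _ rfl) _
  have hp : ∀ (m : ℕ), ∀ p ∈ m.primeFactors, p.Prime := fun m p hp =>
    Nat.prime_of_mem_primeFactors hp
  have hu : tp (T ∪ ((x b).natAbs.primeFactors ∪ (x d).natAbs.primeFactors)) (pr x) =
      tp T (pr x) * (tp (x b).natAbs.primeFactors (pr x) *
        tp (x d).natAbs.primeFactors (pr x)) := by
    unfold tp
    rw [Finset.prod_union, Finset.prod_union (disj hx hbd)]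
    rw [Finset.disjoint_union_right]
    exact ⟨Finset.disjoint_of_subset_left hT (disj hx hab),
      Finset.disjoint_of_subset_left hT (disj hx had)⟩
  rw [hu]
  refine Nat.mul_le_mul (tp_mono T (fun p h => hp _ p (hT h)) h0 d1) (Nat.mul_le_mul ?_ ?_)
  · conv_lhs => rw [← tp_self hb]
    exact tp_mono _ (hp _) h0 d2
  · conv_lhs => rw [← tp_self hd]
    exact tp_mono _ (hp _) h0 d3

lemma le_ht (x : Fin 3 → ℤ) (a : Fin 3) : (x a).natAbs ≤ ht x := by
  unfold ht
  fin_cases a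
  · exact le_max_left _ _
  · exact (le_max_left _ _).trans (le_max_right _ _)
  · exact (le_max_right _ _).trans (le_max_right _ _)

lemma others (a : Fin 3) : ∃ b d : Fin 3, a ≠ b ∧ a ≠ d ∧ b ≠ d := by
  fin_cases a
  · exact ⟨1, 2, by decide, by decide, by decide⟩
  · exact ⟨0, 2, by decide, by decide, by decide⟩
  · exact ⟨0, 1, by decide, by decide, by decide⟩

theorem pf_SLK (hBPK : T_BPK) : T_SLK := by
  classical
  intro c₃ κ' hc hc1 hκ hκ1
  refine ⟨12, 1 / 12, Real.exp (1 / κ' + 4), by norm_num, by norm_num, ?_, ?_⟩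
  · have h1 := Real.add_one_le_exp (1 / κ' + 4)
    have h2 : 0 ≤ 1 / κ' := by positivity
    linarith
  intro X x hX0 hxR hL
  rw [or_iff_not_imp_right]
  intro hno
  push Not at hno
  obtain ⟨a, ha⟩ := hno
  obtain ⟨b, d, hab, had, hbd⟩ := others a
  obtain ⟨hx, hpd, hent, -, -⟩ := hxR
  have hXpos : 0 < X := (Real.exp_pos _).trans_le hX0
  set l : ℝ := Real.log X with hl
  have hl1 : 1 / κ' + 4 ≤ l := by
    rw [hl, Real.le_log_iff_exp_le hXpos]
    exact hX0
  have hκi : 0 < 1 / κ' := by positivity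
  have hl4 : 4 ≤ l := by linarith
  have hl0 : 0 < l := by linarith
  set L : ℝ := Real.log (ht x : ℝ) with hLd
  have hL1 : l ^ (12 : ℕ) ≤ L := by
    have : l ^ (12 : ℝ) = l ^ (12 : ℕ) := by
      rw [← Real.rpow_natCast]; norm_num
    rw [← this]
    exact hL
  have hL0 : 0 < L := lt_of_lt_of_le (by positivity) hL1
  have hht : (0 : ℝ) < (ht x : ℝ) := by
    rcases Nat.eq_zero_or_pos (ht x) with h | h
    · rw [hLd, h] at hL0
      simp at hL0
    · exact_mod_cast h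
  set A := (x a).natAbs.primeFactors with hA
  set E : Finset ℕ := A.filter fun p : ℕ => (p : ℝ) ≤ X ^ (c₃ / 4) with hE
  have hAp : ∀ p ∈ A, p.Prime := fun p hp => Nat.prime_of_mem_primeFactors hp
  have hEp : ∀ p ∈ E, p.Prime := fun p hp => hAp p (Finset.mem_filter.1 hp).1
  have hlogp : ∀ p : ℕ, p.Prime → 0 ≤ Real.log (p : ℝ) := fun p hp =>
    Real.log_nonneg (by exact_mod_cast hp.one_lt.le)
  have hlight : ∀ p ∈ E, Real.log (p : ℝ) ≤ c₃ / 4 * l := by
    intro p hp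
    have h1 := (Finset.mem_filter.1 hp).2
    have h2 : (0 : ℝ) < p := by exact_mod_cast (hEp p hp).pos
    have h3 := Real.log_le_log h2 h1
    rwa [Real.log_rpow hXpos] at h3
  -- the radical of `x a`
  have hpda : ∑ p ∈ A, Real.log (p : ℝ) ≤ l / 2 := by
    rw [← log_pd hAp]
    have hpp : ∀ i, (0 : ℝ) < (pd (x i).natAbs.primeFactors : ℝ) := fun i => by
      exact_mod_cast pd_pos fun p hp => Nat.prime_of_mem_primeFactors hp
    have h1 : ∀ i, (1 / 3 - 1 / 12) * l ≤ Real.log (pd (x i).natAbs.primeFactors : ℝ) := by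
      intro i
      have h2 := Real.log_le_log (Real.rpow_pos_of_pos hXpos _) (hent i)
      rwa [Real.log_rpow hXpos] at h2
    have h2 : Real.log (pd (pr x).primeFactors : ℝ) ≤ l := by
      apply Real.log_le_log _ hpd
      exact_mod_cast pd_pos fun p hp => Nat.prime_of_mem_primeFactors hp
    rw [pd_pr hx hab had hbd, Nat.cast_mul, Nat.cast_mul, Real.log_mul (hpp a).ne'
      (mul_pos (hpp b) (hpp d)).ne', Real.log_mul (hpp b).ne' (hpp d).ne'] at h2
    have h3 := h1 b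
    have h4 := h1 d
    linarith
  have hδ : 0 < c₃ / 4 * l := by positivity
  obtain ⟨n, g, hn, hg, hcov⟩ := hBPK E (fun p => Real.log (p : ℝ)) (c₃ / 4 * l) hδ
    (fun p hp => hlogp p (hEp p hp)) hlight
  have hsumE : ∑ p ∈ E, Real.log (p : ℝ) ≤ l / 2 := by
    refine le_trans (Finset.sum_le_sum_of_subset_of_nonneg (Finset.filter_subset _ _) ?_) hpda
    intro p hp _
    exact hlogp p (hAp p hp)
  have hn1 : (n : ℝ) ≤ 3 / c₃ := by
    refine hn.trans ?_
    have h1 : (∑ p ∈ E, Real.log (p : ℝ)) / (c₃ / 4 * l) ≤ 2 / c₃ := by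
      rw [div_le_div_iff₀ hδ hc]
      nlinarith
    have h2 : (1 : ℝ) ≤ 1 / c₃ := by
      rw [le_div_iff₀ hc]; linarith
    have h3 : 3 / c₃ = 2 / c₃ + 1 / c₃ := by ring
    rw [h3]
    linarith
  have hgp : ∀ i, ∀ p ∈ g i, p.Prime := fun i p hp => hEp p ((hg i).1 hp)
  -- a heavy group
  obtain ⟨i, hi⟩ : ∃ i, 2 * κ' * L ≤ ∑ p ∈ g i, ((x a).natAbs.factorization p : ℝ) *
      Real.log (p : ℝ) := by
    by_contra hcon
    push Not at hcon
    rw [log_tp _ hEp] at ha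
    have hnn : ∀ p ∈ E, 0 ≤ ((x a).natAbs.factorization p : ℝ) * Real.log (p : ℝ) :=
      fun p hp => mul_nonneg (Nat.cast_nonneg _) (hlogp p (hEp p hp))
    have h1 : ∑ p ∈ E, ((x a).natAbs.factorization p : ℝ) * Real.log (p : ℝ) ≤
        ∑ i, ∑ p ∈ g i, ((x a).natAbs.factorization p : ℝ) * Real.log (p : ℝ) := by
      have h2 : ∀ i, ∑ p ∈ g i, ((x a).natAbs.factorization p : ℝ) * Real.log (p : ℝ) =
          ∑ p ∈ E, if p ∈ g i then ((x a).natAbs.factorization p : ℝ) * Real.log (p : ℝ)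
            else 0 := by
        intro i
        rw [← Finset.sum_filter]
        refine Finset.sum_congr ?_ fun _ _ => rfl
        ext p
        rw [Finset.mem_filter]
        exact ⟨fun h => ⟨(hg i).1 h, h⟩, fun h => h.2⟩
      rw [Finset.sum_congr rfl fun i _ => h2 i, Finset.sum_comm]
      refine Finset.sum_le_sum fun p hp => ?_
      obtain ⟨i, hi⟩ := hcov p hp
      have h3 : (if p ∈ g i then ((x a).natAbs.factorization p : ℝ) * Real.log (p : ℝ)
          else 0) ≤ ∑ i, if p ∈ g i then ((x a).natAbs.factorization p : ℝ) *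
            Real.log (p : ℝ) else 0 := by
        refine Finset.single_le_sum (f := fun i => if p ∈ g i then
          ((x a).natAbs.factorization p : ℝ) * Real.log (p : ℝ) else 0) (fun j _ => ?_)
          (Finset.mem_univ i)
        split_ifs
        · exact hnn p hp
        · exact le_rfl
      rw [if_pos hi] at h3
      exact h3
    have h4 : ∑ i, ∑ p ∈ g i, ((x a).natAbs.factorization p : ℝ) * Real.log (p : ℝ) ≤
        n * (2 * κ' * L) := by
      refine (Finset.sum_le_sum fun i _ => (hcon i).le).trans ?_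
      rw [Finset.sum_const, Finset.card_univ, Fintype.card_fin, nsmul_eq_mul]
    have h5 : (n : ℝ) * (2 * κ' * L) ≤ 3 / c₃ * (2 * κ' * L) :=
      mul_le_mul_of_nonneg_right hn1 (by positivity)
    have h6 : 3 / c₃ * (2 * κ' * L) = 6 * κ' / c₃ * L := by ring
    linarith
  have hTA : g i ⊆ A := (hg i).1.trans (Finset.filter_subset _ _)
  have hpdT := (hg i).2
  have hcardT : ((g i).card : ℝ) ≤ l := by
    have h1 : ∀ p ∈ g i, (1 / 2 : ℝ) ≤ Real.log (p : ℝ) := by
      intro p hp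
      have h2 := Real.log_two_gt_d9
      have h3 : Real.log 2 ≤ Real.log (p : ℝ) :=
        Real.log_le_log (by norm_num) (by exact_mod_cast (hgp i p hp).two_le)
      linarith
    have h2 := Finset.sum_le_sum h1
    rw [Finset.sum_const, nsmul_eq_mul] at h2
    nlinarith
  obtain ⟨q, hqT, hq⟩ : ∃ q ∈ g i, κ' * L / l ^ 2 ≤ ((x a).natAbs.factorization q : ℝ) := by
    by_contra hcon
    push Not at hcon
    have h1 : ∑ p ∈ g i, ((x a).natAbs.factorization p : ℝ) * Real.log (p : ℝ) ≤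
        ∑ p ∈ g i, κ' * L / l ^ 2 * l := by
      refine Finset.sum_le_sum fun p hp => ?_
      refine mul_le_mul (hcon p hp).le ?_ (hlogp p (hgp i p hp)) (by positivity)
      have h2 := hlight p ((hg i).1 hp)
      nlinarith
    rw [Finset.sum_const, nsmul_eq_mul] at h1
    have h2 : ((g i).card : ℝ) * (κ' * L / l ^ 2 * l) ≤ l * (κ' * L / l ^ 2 * l) :=
      mul_le_mul_of_nonneg_right hcardT (by positivity)
    have h3 : l * (κ' * L / l ^ 2 * l) = κ' * L := by
      field_simp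
    have h4 : 0 < κ' * L := by positivity
    linarith
  refine ⟨a, b, d, g i, q, hab, had, hbd, hTA, hqT, ?_, ?_, hx, ?_⟩
  · have h1 : (0 : ℝ) < (pd (g i) : ℝ) := by exact_mod_cast pd_pos (hgp i)
    rw [← Real.log_le_log_iff h1 (Real.rpow_pos_of_pos hXpos _), log_pd (hgp i),
      Real.log_rpow hXpos]
    linarith
  · refine le_trans ?_ hq
    have h1 : L = L ^ (3 / 4 : ℝ) * L ^ (1 / 4 : ℝ) := by
      rw [← Real.rpow_add hL0]
      norm_num
    have h2 : l ^ 3 ≤ L ^ (1 / 4 : ℝ) := by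
      have h3 : (l ^ (12 : ℕ)) ^ (1 / 4 : ℝ) ≤ L ^ (1 / 4 : ℝ) :=
        Real.rpow_le_rpow (by positivity) hL1 (by norm_num)
      have h4 : (l ^ (12 : ℕ)) ^ (1 / 4 : ℝ) = l ^ 3 := by
        rw [← Real.rpow_natCast, ← Real.rpow_mul hl0.le, ← Real.rpow_natCast]
        norm_num
      rwa [h4] at h3
    have h5 : 1 ≤ κ' * l := by
      have h6 : 1 / κ' ≤ l := by linarith
      rw [div_le_iff₀ hκ] at h6
      linarith
    have h7 : l ^ 2 ≤ κ' * L ^ (1 / 4 : ℝ) := by
      calc l ^ 2 = l ^ 2 * 1 := by ring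
        _ ≤ l ^ 2 * (κ' * l) := mul_le_mul_of_nonneg_left h5 (by positivity)
        _ = κ' * l ^ 3 := by ring
        _ ≤ κ' * L ^ (1 / 4 : ℝ) := mul_le_mul_of_nonneg_left h2 hκ.le
    have h8 : 0 < L ^ (3 / 4 : ℝ) := Real.rpow_pos_of_pos hL0 _
    rw [le_div_iff₀ (by positivity)]
    calc L ^ (3 / 4 : ℝ) * l ^ 2 ≤ L ^ (3 / 4 : ℝ) * (κ' * L ^ (1 / 4 : ℝ)) :=
          mul_le_mul_of_nonneg_left h7 h8.le
      _ = κ' * (L ^ (3 / 4 : ℝ) * L ^ (1 / 4 : ℝ)) := by ring
      _ = κ' * L := by rw [← h1]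
  · have h1 := tp_pr hx hab had hbd hTA
    have h1' : ((tp (g i) (x a).natAbs : ℕ) : ℝ) * (((x b).natAbs : ℝ) * ((x d).natAbs : ℝ)) ≤
        (tp (g i ∪ ((x b).natAbs.primeFactors ∪ (x d).natAbs.primeFactors)) (pr x) : ℝ) := by
      exact_mod_cast h1
    have h2 : (ht x : ℝ) ^ (2 * κ') ≤ (tp (g i) (x a).natAbs : ℝ) := by
      have h3 : (0 : ℝ) < (tp (g i) (x a).natAbs : ℝ) := by exact_mod_cast tp_pos _ (hgp i)
      rw [← Real.log_le_log_iff (Real.rpow_pos_of_pos hht _) h3, log_tp _ (hgp i),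
        Real.log_rpow hht]
      exact hi
    have h1x : (1 : ℝ) ≤ (ht x : ℝ) := by
      have : (0 : ℕ) < ht x := by exact_mod_cast hht
      exact_mod_cast this
    have h4 : ((x a).natAbs : ℝ) ≤ (ht x : ℝ) ^ (1 - κ') * (tp (g i) (x a).natAbs : ℝ) := by
      calc ((x a).natAbs : ℝ) ≤ (ht x : ℝ) := by exact_mod_cast le_ht x a
        _ = (ht x : ℝ) ^ (1 : ℝ) := (Real.rpow_one _).symm
        _ ≤ (ht x : ℝ) ^ (1 - κ' + 2 * κ') :=
            Real.rpow_le_rpow_of_exponent_le h1x (by linarith)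
        _ = (ht x : ℝ) ^ (1 - κ') * (ht x : ℝ) ^ (2 * κ') := Real.rpow_add hht _ _
        _ ≤ _ := mul_le_mul_of_nonneg_left h2 (Real.rpow_nonneg hht.le _)
    have h5 : (pr x : ℝ) = ((x a).natAbs : ℝ) * (((x b).natAbs : ℝ) * ((x d).natAbs : ℝ)) := by
      rw [pr_eq x hab had hbd, Nat.cast_mul, Nat.cast_mul]
    rw [h5]
    calc ((x a).natAbs : ℝ) * (((x b).natAbs : ℝ) * ((x d).natAbs : ℝ))
        ≤ ((ht x : ℝ) ^ (1 - κ') * (tp (g i) (x a).natAbs : ℝ)) *
            (((x b).natAbs : ℝ) * ((x d).natAbs : ℝ)) :=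
          mul_le_mul_of_nonneg_right h4 (by positivity)
      _ = (ht x : ℝ) ^ (1 - κ') * ((tp (g i) (x a).natAbs : ℝ) *
            (((x b).natAbs : ℝ) * ((x d).natAbs : ℝ))) := by ring
      _ ≤ _ := mul_le_mul_of_nonneg_left h1' (Real.rpow_nonneg hht.le _)

end Pool.Agent.H3.AG
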